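import Pool.Agent.N783.PF.Lat
import Pool.Agent.N262.PJ.Chi

/-!
# Project PF: formal properties of the Gram matrices (`S_CHI`) (helper614)

After `Pool.Agent.N73.PQ.Chi` (helper73) and `Pool.Agent.N262.PJ.Chi` (helper262).
-/

set_option autoImplicit false
set_option linter.all false

open Polynomial Matrix NumberField

namespace Pool.Agent.N614.PF

open Pool.Agent.N783.PF
open Pool.Agent.N783.PQ (chp form Dist)
open Pool.Agent.N352.PJ (Mt Jm)
open Pool.Agent.N262.PJ (det_Jm mul_Jm_apply)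

section cp

/-- The characteristic polynomial of a multiple of a matrix. -/
theorem charpoly_smul {R : Type} [CommRing R] [IsDomain R] {n : Type} [Fintype n] [DecidableEq n]
    (M : Matrix n n R) {c : R} (hc : c ≠ 0) : (c • M).charpoly = M.charpoly.scaleRoots c := by
  have h1 : (c • M).charpoly.comp (C c * X) = C (c ^ Fintype.card n) * M.charpoly := by
    have e1 : (Polynomial.compRingHom (C c * X)).mapMatrix (charmatrix (c • M)) =
        (C c) • charmatrix M := by
      ext1 i j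
      rw [RingHom.mapMatrix_apply, Matrix.map_apply, Matrix.smul_apply, smul_eq_mul]
      by_cases hij : i = j
      · subst hij
        rw [charmatrix_apply_eq, charmatrix_apply_eq, map_sub]
        simp only [Polynomial.coe_compRingHom_apply, X_comp, C_comp, Matrix.smul_apply,
          smul_eq_mul, C_mul, mul_comp]
        ring
      · rw [charmatrix_apply_ne _ _ _ hij, charmatrix_apply_ne _ _ _ hij, map_neg]
        simp only [Polynomial.coe_compRingHom_apply, C_comp, Matrix.smul_apply,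
          smul_eq_mul, C_mul, mul_comp]
        ring
    have e2 := (Polynomial.compRingHom (C c * X)).map_det (charmatrix (c • M))
    rw [e1, Matrix.det_smul] at e2
    rw [Matrix.charpoly, Matrix.charpoly, C_pow]
    exact e2
  ext i
  have h2 := congrArg (fun p : R[X] => p.coeff i) h1
  simp only [comp_C_mul_X_coeff, coeff_C_mul] at h2
  rw [coeff_scaleRoots, charpoly_natDegree_eq_dim]
  have hci : c ^ i ≠ 0 := pow_ne_zero _ hc
  apply mul_right_cancel₀ hci
  rw [h2]
  by_cases hi : i ≤ Fintype.card n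
  · rw [mul_assoc, ← pow_add, Nat.sub_add_cancel hi, mul_comm]
  · rw [coeff_eq_zero_of_natDegree_lt (by rw [charpoly_natDegree_eq_dim]; omega)]
    ring

end cp

section gen

variable {F L : Type} [Field F] [NumberField F] [Field L] [NumberField L] [Algebra F L] {g : ℕ}
  {f : (𝓞 F)[X]} {θ : L}

theorem findim (h : IsGen g f θ) : FiniteDimensional F L :=
  Module.finite_of_finrank_pos (by rw [h.rank]; omega)

theorem minpoly_deg (h : IsGen g f θ) : (minpoly F θ).natDegree = 2 * g + 1 := by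
  have := findim h
  rw [← h.rank, ← Field.primitive_element_iff_minpoly_natDegree_eq, eq_top_iff]
  intro x _
  obtain ⟨c, rfl⟩ := h.gen x
  refine sum_mem fun i _ => mul_mem (IntermediateField.algebraMap_mem _ (c i)) (pow_mem ?_ _)
  exact IntermediateField.mem_adjoin_simple_self F θ

theorem minpoly_eq (h : IsGen g f θ) : minpoly F θ = fF f := by
  have := findim h
  have h1 : (fF f).Monic := h.mon.map _
  refine (Polynomial.eq_of_monic_of_dvd_of_natDegree_le
    (minpoly.monic (IsIntegral.of_finite F θ)) h1 (minpoly.dvd F θ h.root) ?_).symm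
  rw [minpoly_deg h, fF, h.mon.natDegree_map, h.deg]

theorem charpoly_mulMatrix (h : IsGen g f θ) (b : Module.Basis (Fin (2 * g + 1)) F L) :
    (Algebra.leftMulMatrix b θ).charpoly = fF f := by
  have := findim h
  have h1 : (Algebra.leftMulMatrix b θ).charpoly = (Algebra.lmul F L θ).charpoly := by
    rw [Algebra.leftMulMatrix_apply]
    exact LinearMap.charpoly_toMatrix _ b
  rw [h1, ← minpoly_eq h]
  refine Polynomial.eq_of_monic_of_dvd_of_natDegree_le
    (minpoly.monic (IsIntegral.of_finite F θ)) (LinearMap.charpoly_monic _) ?_ ?_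
  · have h2 := LinearMap.minpoly_dvd_charpoly (Algebra.lmul F L θ)
    have h3 : minpoly F (Algebra.lmul F L θ) = minpoly F θ :=
      minpoly.algHom_eq (Algebra.lmul F L) Algebra.lmul_injective θ
    rwa [h3] at h2
  · rw [LinearMap.charpoly_natDegree, h.rank, minpoly_deg h]

theorem top_pow (h : IsGen g f θ) (m : ℕ) (hm : m ≤ 2 * g) :
    h.top (θ ^ m) = if m = 2 * g then 1 else 0 := by
  have e1 : θ ^ m = h.basis ⟨m, by omega⟩ := by rw [h.basis_apply]
  rw [e1]
  unfold IsGen.top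
  rw [Module.Basis.coord_apply, Module.Basis.repr_self, Finsupp.single_apply]
  congr 1
  rw [Fin.ext_iff, Fin.val_last]

/-- The determinant of the Gram matrix. -/
theorem det (h : IsGen g f θ) (α : L) (E : Mt g F) (hα : α ≠ 0) :
    (Matrix.of fun i j => h.top ((∑ a, E i a • θ ^ (a : ℕ)) *
      (∑ a, E j a • θ ^ (a : ℕ)) / α) : Mt g F).det =
      E.det ^ 2 * (-1) ^ g * (Algebra.norm F α)⁻¹ := by
  set N : Mt g F := Algebra.leftMulMatrix h.basis α⁻¹ with hN
  set H : Mt g F := Matrix.of fun c b => h.top (θ ^ (c : ℕ) * θ ^ (b : ℕ)) with hH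
  have h1 : (Matrix.of fun i j => h.top ((∑ a, E i a • θ ^ (a : ℕ)) *
      (∑ a, E j a • θ ^ (a : ℕ)) / α) : Mt g F) = E * (Nᵀ * H) * Eᵀ := by
    ext i j
    rw [Matrix.of_apply]
    have e1 : (∑ a, E i a • θ ^ (a : ℕ)) * (∑ a, E j a • θ ^ (a : ℕ)) / α =
        ∑ b, E j b • ∑ a, E i a • (θ ^ (a : ℕ) * θ ^ (b : ℕ) / α) := by
      rw [mul_comm, Finset.sum_mul, Finset.sum_div]
      refine Finset.sum_congr rfl fun b _ => ?_
      rw [Finset.mul_sum, Finset.sum_div, Finset.smul_sum]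
      refine Finset.sum_congr rfl fun a _ => ?_
      simp only [Algebra.smul_def]
      ring
    have e2 : ∀ a b : Fin (2 * g + 1), h.top (θ ^ (a : ℕ) * θ ^ (b : ℕ) / α) =
        (Nᵀ * H) a b := by
      intro a b
      rw [Matrix.mul_apply]
      have e3 : θ ^ (a : ℕ) * θ ^ (b : ℕ) / α =
          ∑ c, N c a • (θ ^ (c : ℕ) * θ ^ (b : ℕ)) := by
        have e4 : α⁻¹ * θ ^ (a : ℕ) = ∑ c, N c a • θ ^ (c : ℕ) := by
          have := h.basis.sum_repr (α⁻¹ * h.basis a)
          rw [h.basis_apply] at this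
          rw [← this]
          refine Finset.sum_congr rfl fun c _ => ?_
          rw [hN, Algebra.leftMulMatrix_eq_repr_mul, h.basis_apply, h.basis_apply]
        have e5 : θ ^ (a : ℕ) * θ ^ (b : ℕ) / α = (α⁻¹ * θ ^ (a : ℕ)) * θ ^ (b : ℕ) := by
          rw [div_eq_mul_inv]; ring
        rw [e5, e4, Finset.sum_mul]
        refine Finset.sum_congr rfl fun c _ => ?_
        simp only [Algebra.smul_def]
        ring
      rw [e3, map_sum]
      refine Finset.sum_congr rfl fun c _ => ?_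
      rw [map_smul, smul_eq_mul, Matrix.transpose_apply, hH, Matrix.of_apply]
    rw [e1, map_sum, Matrix.mul_apply]
    refine Finset.sum_congr rfl fun b _ => ?_
    rw [map_smul, smul_eq_mul, map_sum, Matrix.transpose_apply, mul_comm]
    congr 1
    rw [Matrix.mul_apply]
    refine Finset.sum_congr rfl fun a _ => ?_
    rw [map_smul, smul_eq_mul, e2]
  have hHJ : (H * Jm g F).det = 1 := by
    rw [Matrix.det_of_lowerTriangular]
    · apply Finset.prod_eq_one
      intro i _
      rw [mul_Jm_apply, hH, Matrix.of_apply, ← pow_add, Fin.val_rev, top_pow]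
      · rw [if_pos (by omega)]
      · omega
    · intro i j hij
      have hij' : (i : ℕ) < j := hij
      rw [mul_Jm_apply, hH, Matrix.of_apply, ← pow_add, Fin.val_rev, top_pow]
      · rw [if_neg (by omega)]
      · omega
  have hHd : H.det = (-1) ^ g := by
    rw [Matrix.det_mul, det_Jm] at hHJ
    have : H.det * ((-1) ^ g * (-1) ^ g) = (-1) ^ g := by
      rw [← mul_assoc, hHJ, one_mul]
    rwa [← mul_pow, neg_one_mul, neg_neg, one_pow, mul_one] at this
  have hNd : N.det = (Algebra.norm F α)⁻¹ := by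
    rw [hN, ← Algebra.norm_eq_matrix_det]
    apply eq_inv_of_mul_eq_one_left
    rw [← map_mul, inv_mul_cancel₀ hα, map_one]
  rw [h1, Matrix.det_mul, Matrix.det_mul, Matrix.det_mul, Matrix.det_transpose,
    Matrix.det_transpose, hHd, hNd]
  ring

variable {hG : IsGen g f θ} {α : L} {e : Fin (2 * g + 1) → L} {A B : Mt g (𝓞 F)}

theorem mF_apply (A : Mt g (𝓞 F)) (i j : Fin (2 * g + 1)) : mF A i j = ((A i j : 𝓞 F) : F) := rfl

theorem mF_mul (A B : Mt g (𝓞 F)) : mF (A * B) = mF A * mF B := Matrix.map_mul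

theorem mF_det (A : Mt g (𝓞 F)) : (mF A).det = ((A.det : 𝓞 F) : F) :=
  ((algebraMap (𝓞 F) F).map_det A).symm

theorem mF_adj (A : Mt g (𝓞 F)) : mF A.adjugate = (mF A).adjugate :=
  (algebraMap (𝓞 F) F).map_adjugate A

theorem mF_pow (A : Mt g (𝓞 F)) (m : ℕ) : mF (A ^ m) = mF A ^ m :=
  ((algebraMap (𝓞 F) F).mapMatrix).map_pow A m

/-- Products with basis vectors. -/
theorem gram_mul (hl : Gr hG α e A B) (b : Module.Basis (Fin (2 * g + 1)) F L)
    (hb : ∀ i, b i = e i) (z : L) (i : Fin (2 * g + 1)) :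
    hG.top (e i * z / α) = ∑ l, mF A i l * b.repr z l := by
  have h1 : e i * z / α = ∑ l, b.repr z l • (e i * e l / α) := by
    conv_lhs => rw [← b.sum_repr z]
    rw [Finset.mul_sum, Finset.sum_div]
    refine Finset.sum_congr rfl fun l _ => ?_
    rw [hb]
    simp only [Algebra.smul_def]
    ring
  rw [h1, map_sum]
  refine Finset.sum_congr rfl fun l _ => ?_
  rw [map_smul, smul_eq_mul, ← hl.gA, mF_apply, mul_comm]

theorem gram_pow (hl : Gr hG α e A B) (b : Module.Basis (Fin (2 * g + 1)) F L)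
    (hb : ∀ i, b i = e i) (x : L) (i j : Fin (2 * g + 1)) :
    (mF A * Algebra.leftMulMatrix b x) i j = hG.top (x * (e i * e j) / α) := by
  have h1 : x * (e i * e j) / α = e i * (x * e j) / α := by ring
  rw [h1, gram_mul hl b hb, Matrix.mul_apply]
  refine Finset.sum_congr rfl fun l _ => ?_
  rw [Algebra.leftMulMatrix_eq_repr_mul, hb]

theorem gram_op (hl : Gr hG α e A B) (b : Module.Basis (Fin (2 * g + 1)) F L)
    (hb : ∀ i, b i = e i) : mF A * Algebra.leftMulMatrix b θ = mF B := by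
  ext i j
  rw [gram_pow hl b hb, mF_apply, hl.gB]

theorem det_eq (hl : Gr hG α e A B) (hα : α ≠ 0) (b : Module.Basis (Fin (2 * g + 1)) F L)
    (hb : ∀ i, b i = e i) : ∃ d : F, d ≠ 0 ∧
      ((A.det : 𝓞 F) : F) = d ^ 2 * (-1) ^ g * (Algebra.norm F α)⁻¹ := by
  let E : Mt g F := fun i a => hG.basis.repr (e i) a
  have hE : ∀ i, e i = ∑ a, E i a • θ ^ (a : ℕ) := fun i => by
    conv_lhs => rw [← hG.basis.sum_repr (e i)]
    exact Finset.sum_congr rfl fun a _ => by rw [hG.basis_apply]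
  have h1 := det hG α E hα
  have h2 : (Matrix.of fun i j => hG.top ((∑ a, E i a • θ ^ (a : ℕ)) *
      (∑ a, E j a • θ ^ (a : ℕ)) / α) : Mt g F) = mF A := by
    ext i j
    rw [Matrix.of_apply, ← hE, ← hE, mF_apply, hl.gA]
  rw [h2, mF_det] at h1
  refine ⟨E.det, ?_, h1⟩
  have h3 : E = (hG.basis.toMatrix b)ᵀ := by
    ext i a
    rw [Matrix.transpose_apply, Module.Basis.toMatrix_apply, hb]
  rw [h3, Matrix.det_transpose]
  intro h0
  have h4 := hG.basis.toMatrix_mul_toMatrix_flip b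
  have h5 := congrArg Matrix.det h4
  rw [Matrix.det_mul, h0, zero_mul, Matrix.det_one] at h5
  exact zero_ne_one h5

/-- The values of the forms. -/
theorem form_eq (hl : Gr hG α e A B) (b : Module.Basis (Fin (2 * g + 1)) F L)
    (hb : ∀ i, b i = e i) (z x : L) :
    (fun i => b.repr x i) ⬝ᵥ ((mF A * Algebra.leftMulMatrix b z) *ᵥ fun i => b.repr x i) =
      hG.top (z * x ^ 2 / α) := by
  have e2 : z * x ^ 2 / α = ∑ i, b.repr x i • ∑ j, b.repr x j • (z * (e i * e j) / α) := by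
    have hx : x = ∑ i, b.repr x i • e i := by
      conv_lhs => rw [← b.sum_repr x]
      exact Finset.sum_congr rfl fun i _ => by rw [hb]
    have hx2 : x ^ 2 = (∑ i, b.repr x i • e i) * (∑ i, b.repr x i • e i) := by
      rw [← hx, sq]
    rw [hx2, Finset.sum_mul, Finset.mul_sum, Finset.sum_div]
    refine Finset.sum_congr rfl fun i _ => ?_
    rw [Finset.mul_sum, Finset.mul_sum, Finset.sum_div, Finset.smul_sum]
    refine Finset.sum_congr rfl fun j _ => ?_
    simp only [Algebra.smul_def]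
    ring
  rw [e2, map_sum, dotProduct]
  refine Finset.sum_congr rfl fun i _ => ?_
  rw [map_smul, smul_eq_mul, map_sum, Matrix.mulVec, dotProduct]
  congr 1
  refine Finset.sum_congr rfl fun j _ => ?_
  rw [map_smul, smul_eq_mul, gram_pow hl b hb, mul_comm]

end gen

/-- **Formal properties of the Gram matrices.** -/
theorem chi : S_CHI := by
  intro g F L _ _ _ _ _ f θ hG α Λ e htr hα hΛ heΛ he
  have hfd := findim hG
  have hA : ∀ i j, ∃ a : 𝓞 F, (a : F) = hG.top (e i * e j / α) := fun i j =>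
    ⟨⟨_, hΛ.int _ (heΛ i) _ (heΛ j)⟩, rfl⟩
  have hB : ∀ i j, ∃ a : 𝓞 F, (a : F) = hG.top (θ * (e i * e j) / α) := fun i j => by
    refine ⟨⟨_, hΛ.int _ (hΛ.stab _ (heΛ i)) _ (heΛ j)⟩, ?_⟩
    change hG.top (θ * e i * e j / α) = _
    rw [mul_assoc]
  choose A₀ hA₀ using hA
  choose B₀ hB₀ using hB
  let A : Mt g (𝓞 F) := Matrix.of A₀
  let B : Mt g (𝓞 F) := Matrix.of B₀
  have hl : Gr hG α e A B := ⟨hA₀, hB₀⟩
  obtain ⟨b, hb⟩ : ∃ b : Module.Basis (Fin (2 * g + 1)) F L, ∀ i, b i = e i := by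
    refine ⟨basisOfLinearIndependentOfCardEqFinrank he (by rw [hG.rank, Fintype.card_fin]),
      fun i => ?_⟩
    rw [coe_basisOfLinearIndependentOfCardEqFinrank]
  obtain ⟨d, hd0, hd⟩ := det_eq hl hα b hb
  have hinj : Function.Injective (algebraMap (𝓞 F) F) := RingOfIntegers.coe_injective
  have hN0 : Algebra.norm F α ≠ 0 := fun h0 => hα (Algebra.norm_eq_zero_iff.1 h0)
  have hAF : ((A.det : 𝓞 F) : F) ≠ 0 := by
    rw [hd]
    exact mul_ne_zero (mul_ne_zero (pow_ne_zero _ hd0) (pow_ne_zero _ (by norm_num)))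
      (inv_ne_zero hN0)
  have hA0 : A.det ≠ 0 := by
    intro h0
    rw [h0] at hAF
    exact hAF (map_zero _)
  have hdF : IsUnit (mF A).det := by
    rw [mF_det]
    exact hAF.isUnit
  have hop := gram_op hl b hb
  have hinv : (mF A)⁻¹ * mF B = Algebra.leftMulMatrix b θ := by
    rw [← hop, ← Matrix.mul_assoc, Matrix.nonsing_inv_mul _ hdF, Matrix.one_mul]
  have hC : mF (A.adjugate * B) = ((A.det : 𝓞 F) : F) • Algebra.leftMulMatrix b θ := by
    rw [mF_mul, mF_adj, ← hop, ← Matrix.mul_assoc, Matrix.adjugate_mul, mF_det,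
      Matrix.smul_mul, Matrix.one_mul]
  have hcp : (A.adjugate * B).charpoly = f.scaleRoots A.det := by
    apply Polynomial.map_injective (algebraMap (𝓞 F) F) hinj
    rw [← Matrix.charpoly_map, Polynomial.map_scaleRoots]
    · change (mF (A.adjugate * B)).charpoly = _
      rw [hC, charpoly_smul _ hAF, charpoly_mulMatrix hG]
    · rw [hG.mon.leadingCoeff, map_one]
      exact one_ne_zero
  refine ⟨A, B, hl, ?_, ?_, hA0, ?_, ?_, ?_, ?_⟩
  · ext i j
    have h1 : ((A j i : 𝓞 F) : F) = ((A i j : 𝓞 F) : F) := by rw [hl.gA, hl.gA, mul_comm (e j)]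
    exact congrArg _ (hinj h1)
  · ext i j
    have h1 : ((B j i : 𝓞 F) : F) = ((B i j : 𝓞 F) : F) := by rw [hl.gB, hl.gB, mul_comm (e j)]
    exact congrArg _ (hinj h1)
  · rw [chp, hinv, charpoly_mulMatrix hG]
  · apply hinj
    have h1 : algebraMap (𝓞 F) F (A.adjugate * B).trace = (mF (A.adjugate * B)).trace := by
      rw [Matrix.trace, Matrix.trace, map_sum]
      rfl
    rw [h1, hC, Matrix.trace_smul, Matrix.trace_eq_neg_charpoly_coeff, charpoly_mulMatrix hG,
      Fintype.card_fin, Nat.add_sub_cancel, coeff_map, htr, map_zero, neg_zero, smul_zero]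
  · rintro ⟨s, hs⟩
    have hs0 : s ≠ 0 := by
      rintro rfl
      rw [mul_zero] at hs
      exact hN0 hs
    have h4 : ((-1 : F)) ^ g * (-1) ^ g = 1 := by
      rw [← mul_pow, neg_one_mul, neg_neg, one_pow]
    have h3 : (d / s) ^ 2 = (((-1) ^ g * A.det : 𝓞 F) : F) := by
      have : (((-1) ^ g * A.det : 𝓞 F) : F) = (-1) ^ g * ((A.det : 𝓞 F) : F) := by
        push_cast
        ring
      rw [this, hd, hs]
      calc (d / s) ^ 2 = (d / s) ^ 2 * 1 := by rw [mul_one]
        _ = (d / s) ^ 2 * ((-1 : F) ^ g * (-1) ^ g) := by rw [h4]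
        _ = _ := by
          rw [div_pow, sq s, div_eq_mul_inv]
          ring
    have h5 : IsIntegral ℤ (d / s) := by
      have h6 : IsIntegral ℤ ((d / s) ^ 2) := by
        rw [h3]
        exact RingOfIntegers.isIntegral_coe _
      exact h6.of_pow (by norm_num)
    obtain ⟨r, hr⟩ : ∃ r : 𝓞 F, algebraMap (𝓞 F) F r = d / s := ⟨⟨_, h5⟩, rfl⟩
    refine ⟨r, ?_, ?_⟩
    · rintro rfl
      rw [map_zero] at hr
      exact (div_ne_zero hd0 hs0) hr.symm
    · apply hinj
      have h7 : algebraMap (𝓞 F) F ((-1) ^ g * r ^ 2) = (-1) ^ g * (d / s) ^ 2 := by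
        rw [map_mul, map_pow, map_pow, map_neg, map_one, hr]
      rw [h7, h3]
      have h8 : (((-1) ^ g * A.det : 𝓞 F) : F) = (-1) ^ g * ((A.det : 𝓞 F) : F) := by
        push_cast
        ring
      rw [h8, ← mul_assoc, h4, one_mul]
  · intro 𝔮 h𝔮 h𝔮0 hδ
    have hmax : 𝔮.IsMaximal := h𝔮.isMaximal h𝔮0
    have hdom : IsDomain (𝓞 F ⧸ 𝔮) := Ideal.Quotient.isDomain 𝔮
    have hex : ∀ a : 𝓞 F, a ∉ 𝔮 → ∃ t : 𝓞 F, Ideal.Quotient.mk 𝔮 a * Ideal.Quotient.mk 𝔮 t = 1 := by
      intro a ha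
      have h1 : Ideal.Quotient.mk 𝔮 a ≠ 0 := fun h => ha (Ideal.Quotient.eq_zero_iff_mem.1 h)
      obtain ⟨c, hc⟩ := Ideal.Quotient.exists_inv h1
      obtain ⟨t, rfl⟩ := Ideal.Quotient.mk_surjective c
      exact ⟨t, hc⟩
    obtain ⟨t, ht⟩ := hex _ hδ
    have ht0 : Ideal.Quotient.mk 𝔮 t ≠ 0 := right_ne_zero_of_mul_eq_one ht
    have hrd : (rm 𝔮 A).det = Ideal.Quotient.mk 𝔮 A.det := ((Ideal.Quotient.mk 𝔮).map_det A).symm
    have hra : (rm 𝔮 A).adjugate = rm 𝔮 A.adjugate := ((Ideal.Quotient.mk 𝔮).map_adjugate A).symm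
    have hri : (rm 𝔮 A)⁻¹ = Ideal.Quotient.mk 𝔮 t • rm 𝔮 A.adjugate := by
      apply Matrix.inv_eq_left_inv
      have ht' : Ideal.Quotient.mk 𝔮 t * Ideal.Quotient.mk 𝔮 A.det = 1 := by
        rw [mul_comm]; exact ht
      rw [Matrix.smul_mul, ← hra, Matrix.adjugate_mul, hrd, smul_smul, ht', one_smul]
    have hro : (rm 𝔮 A)⁻¹ * rm 𝔮 B = Ideal.Quotient.mk 𝔮 t • rm 𝔮 (A.adjugate * B) := by
      rw [hri, Matrix.smul_mul]
      congr 1
      exact (Matrix.map_mul).symm
    refine ⟨?_, ?_⟩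
    · rw [chp, hro, charpoly_smul _ ht0]
      have h1 : (rm 𝔮 (A.adjugate * B)).charpoly = (rd 𝔮 f).scaleRoots (Ideal.Quotient.mk 𝔮 A.det) := by
        rw [rm, Matrix.charpoly_map, hcp, Polynomial.map_scaleRoots]
        rw [hG.mon.leadingCoeff, map_one]
        exact one_ne_zero
      rw [h1, ← scaleRoots_mul, ht, scaleRoots_one]
    · rintro ⟨x, hx, s, hs, hm⟩
      obtain ⟨s', hs'⟩ := hex s hs
      have hy : ∀ j, ∃ a : 𝓞 F, (a : F) = hG.top (e j * x / α) := fun j =>
        ⟨⟨_, hΛ.int _ (heΛ j) _ hx⟩, rfl⟩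
      choose y hy using hy
      let c : Fin (2 * g + 1) → 𝓞 F := A.adjugate *ᵥ y
      have hmv : ∀ (M : Mt g (𝓞 F)) (v : Fin (2 * g + 1) → 𝓞 F),
          (fun i => (((M *ᵥ v) i : 𝓞 F) : F)) = mF M *ᵥ fun i => ((v i : 𝓞 F) : F) := by
        intro M v
        funext i
        change algebraMap (𝓞 F) F (∑ j, M i j * v j) =
          ∑ j, algebraMap (𝓞 F) F (M i j) * algebraMap (𝓞 F) F (v j)
        rw [map_sum]
        simp only [map_mul]
      have hyF : (fun i => ((y i : 𝓞 F) : F)) = mF A *ᵥ fun i => b.repr x i := by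
        funext i
        rw [hy, gram_mul hl b hb, Matrix.mulVec, dotProduct]
      have hcF : (fun i => ((c i : 𝓞 F) : F)) = ((A.det : 𝓞 F) : F) • fun i => b.repr x i := by
        rw [hmv, hyF, Matrix.mulVec_mulVec, mF_adj, Matrix.adjugate_mul, mF_det,
          Matrix.smul_mulVec, Matrix.one_mulVec]
      have key : ∀ m, ((c ⬝ᵥ ((A * (A.adjugate * B) ^ m) *ᵥ c) : 𝓞 F) : F) =
          ((A.det : 𝓞 F) : F) ^ (m + 2) * hG.top (θ ^ m * x ^ 2 / α) := by
        intro m
        have h1 : ((c ⬝ᵥ ((A * (A.adjugate * B) ^ m) *ᵥ c) : 𝓞 F) : F) =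
            (fun i => ((c i : 𝓞 F) : F)) ⬝ᵥ
              (mF (A * (A.adjugate * B) ^ m) *ᵥ fun i => ((c i : 𝓞 F) : F)) := by
          rw [← hmv]
          change algebraMap (𝓞 F) F (∑ i, c i * ((A * (A.adjugate * B) ^ m) *ᵥ c) i) =
            ∑ i, algebraMap (𝓞 F) F (c i) *
              algebraMap (𝓞 F) F (((A * (A.adjugate * B) ^ m) *ᵥ c) i)
          rw [map_sum]
          simp only [map_mul]
        rw [h1, hcF, mF_mul, mF_pow, hC, _root_.smul_pow, ← map_pow (Algebra.leftMulMatrix b) θ m, Matrix.mul_smul,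
          Matrix.mulVec_smul, Matrix.smul_mulVec, smul_dotProduct, dotProduct_smul,
          dotProduct_smul, form_eq hl b hb]
        simp only [smul_eq_mul]
        ring
      refine ⟨fun i => Ideal.Quotient.mk 𝔮 (t * s' * c i), fun m hm2 => ?_⟩
      obtain ⟨a, ha, hae⟩ := hm m hm2
      have hk : c ⬝ᵥ ((A * (A.adjugate * B) ^ m) *ᵥ c) =
          A.det ^ (m + 2) * (a + if m = 2 * g then s ^ 2 else 0) := by
        apply hinj
        refine (key m).trans ?_
        have h2 : hG.top (θ ^ m * x ^ 2 / α) =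
            ((a + (if m = 2 * g then s ^ 2 else 0) : 𝓞 F) : F) := by
          have h3 : hG.top (θ ^ m * x ^ 2 / α) = (a : F) + if m = 2 * g then (s : F) ^ 2 else 0 := by
            rw [hae]; ring
          rw [h3]
          change _ = algebraMap (𝓞 F) F (a + if m = 2 * g then s ^ 2 else 0)
          rw [map_add]
          split_ifs <;> simp
        rw [h2, map_mul, map_pow]
      have hmk : ∀ (M : Mt g (𝓞 F)) (v : Fin (2 * g + 1) → 𝓞 F),
          (fun i => Ideal.Quotient.mk 𝔮 (v i)) ⬝ᵥ (rm 𝔮 M *ᵥ fun i => Ideal.Quotient.mk 𝔮 (v i)) =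
            Ideal.Quotient.mk 𝔮 (v ⬝ᵥ (M *ᵥ v)) := by
        intro M v
        rw [dotProduct, dotProduct, map_sum]
        refine Finset.sum_congr rfl fun i _ => ?_
        rw [map_mul, Matrix.mulVec, Matrix.mulVec, dotProduct, dotProduct, map_sum]
        simp only [map_mul, Matrix.map_apply, rm]
      have hpow : rm 𝔮 A * ((rm 𝔮 A)⁻¹ * rm 𝔮 B) ^ m =
          Ideal.Quotient.mk 𝔮 t ^ m • rm 𝔮 (A * (A.adjugate * B) ^ m) := by
        rw [hro, _root_.smul_pow, Matrix.mul_smul]
        congr 1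
        have h1 : rm 𝔮 (A * (A.adjugate * B) ^ m) = rm 𝔮 A * rm 𝔮 ((A.adjugate * B) ^ m) :=
          Matrix.map_mul
        have h2 : rm 𝔮 ((A.adjugate * B) ^ m) = rm 𝔮 (A.adjugate * B) ^ m :=
          ((Ideal.Quotient.mk 𝔮).mapMatrix).map_pow (A.adjugate * B) m
        rw [h1, h2]
      have hξ : (fun i => Ideal.Quotient.mk 𝔮 (t * s' * c i)) =
          Ideal.Quotient.mk 𝔮 (t * s') • fun i => Ideal.Quotient.mk 𝔮 (c i) := by
        funext i
        rw [Pi.smul_apply, smul_eq_mul, map_mul]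
      have h0 : Ideal.Quotient.mk 𝔮 a = 0 := Ideal.Quotient.eq_zero_iff_mem.2 ha
      rw [form, hpow, hξ, Matrix.mulVec_smul, Matrix.smul_mulVec, smul_dotProduct,
        dotProduct_smul, dotProduct_smul, hmk, hk]
      simp only [smul_eq_mul, map_mul, map_pow, map_add, h0, zero_add]
      split_ifs with h
      · rw [map_pow]
        calc _ = (Ideal.Quotient.mk 𝔮 A.det * Ideal.Quotient.mk 𝔮 t) ^ (m + 2) *
              (Ideal.Quotient.mk 𝔮 s * Ideal.Quotient.mk 𝔮 s') ^ 2 := by ring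
          _ = 1 := by rw [ht, hs', one_pow, one_pow, one_mul]
      · rw [map_zero]
        ring

end Pool.Agent.N614.PF
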